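import Mathlib
import Pool.Agent.TH880.AL14

/-! The conjectured character formulas for free alternative algebras fail for `dim V = 12`
(helper880). The equations defining `a(V)` and `b(V)` force the multiplicity of the twelfth exterior
power of `V` in `a(V)` to be `-10`, which is impossible for the class of an actual module. -/

set_option autoImplicit false

namespace Pool.Agent.Results.MP_9e3efc_al.CharacterFormulaFails

open Pool.Agent.TH880.AL

universe u

/-- Over every field of characteristic zero, for `dim V = 12`, the characters of the free alternative
algebra `Alt(V)` and of `𝓑(Alt(V))` do not satisfy the two equations which define `a(V)` and `b(V)`;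
hence `[Alt(V)] = a(V)` and `[𝓑(Alt(V))] = b(V)` do not both hold. -/
theorem result (k : Type u) [Field k] [CharZero k] :
    ¬ CharacterEquations 12 (altDim k 12) (bDim k 12) :=
  fails k

end Pool.Agent.Results.MP_9e3efc_al.CharacterFormulaFails
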